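import Pool.Agent.H115R3.Sponge.Shear

/-!
# Guth's sponge problem, as posed

Every open set of `ℝ^n` of volume at most `1` has a length-increasing embedding into the closed
unit ball.  For `n ≥ 2` no bound on the volume is needed: there is a homeomorphism of `ℝ^n`, a
composition of shears along a continuous function of infinite variation on every interval, which
sends every nonconstant rectifiable curve to a curve of infinite length.  For `n = 1` the
components of the open set are slid together.
-/

open Set Filter Topology MeasureTheory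
open scoped ENNReal

noncomputable section
namespace Pool.Agent.Results.MP_ecd4e3_gt.SpongeEmbedding

open Pool.Agent.H115R3.Sponge

/-- The length of a curve parametrised by `[0,1]` (the supremum of the lengths of inscribed
polygons, possibly infinite). -/
def curveLength {X : Type*} [PseudoEMetricSpace X] (γ : unitInterval → X) : ℝ≥0∞ :=
  eVariationOn γ univ

/-- `f : U → ℝ^n` is an embedding (a homeomorphism onto its image) into the closed unit ball that
does not decrease the length of any rectifiable curve in `U`. -/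
structure IsLengthIncreasingEmbedding {n : ℕ} (U : Set (EuclideanSpace ℝ (Fin n)))
    (f : U → EuclideanSpace ℝ (Fin n)) : Prop where
  isEmbedding : Topology.IsEmbedding f
  mem_ball : ∀ x, f x ∈ Metric.closedBall (0 : EuclideanSpace ℝ (Fin n)) 1
  length_le : ∀ γ : C(unitInterval, U), curveLength γ ≠ ⊤ →
    curveLength γ ≤ curveLength fun t => f (γ t)

/-! ### Dimension at least two -/

lemma lipschitz_arctan : LipschitzWith 1 Real.arctan := by
  apply lipschitzWith_of_nnnorm_deriv_le Real.differentiable_arctan
  intro x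
  rw [Real.deriv_arctan, ← NNReal.coe_le_coe, coe_nnnorm, Real.norm_eq_abs, NNReal.coe_one,
    abs_of_nonneg (by positivity), div_le_one (by positivity)]
  nlinarith [sq_nonneg x]

lemma isEmbedding_arctan : Topology.IsEmbedding Real.arctan :=
  Real.arctan_strictMono.isEmbedding_of_ordConnected <| by
    rw [Real.range_arctan]; exact ordConnected_Ioo

/-- Coordinatewise arctangent. -/
def shrink {n : ℕ} (x : Sp n) : Sp n := WithLp.toLp 2 fun i => Real.arctan (x i)

lemma isEmbedding_shrink {n : ℕ} : Topology.IsEmbedding (shrink (n := n)) := by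
  have h1 : Topology.IsEmbedding (Pi.map fun _ : Fin n => Real.arctan) :=
    Topology.IsEmbedding.piMap fun _ => isEmbedding_arctan
  have h2 := (PiLp.homeomorph 2 (fun _ : Fin n => ℝ)).symm.isEmbedding.comp
    (h1.comp (PiLp.homeomorph 2 (fun _ : Fin n => ℝ)).isEmbedding)
  exact h2

/-- The variation of a coordinate is at most the length. -/
lemma eVariationOn_coord_le {n : ℕ} (y : unitInterval → Sp n) (i : Fin n) :
    eVariationOn (fun t => y t i) univ ≤ eVariationOn y univ := by
  apply iSup_le
  rintro ⟨k, u, hu, hs⟩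
  refine le_trans (Finset.sum_le_sum fun j _ => ?_) (eVariationOn.sum_le (f := y) (n := k) hu hs)
  rw [edist_dist, edist_dist]
  apply ENNReal.ofReal_le_ofReal
  rw [Real.dist_eq, dist_eq_norm, ← Real.norm_eq_abs]
  exact PiLp.norm_apply_le (y (u (j + 1)) - y (u j)) i

theorem two_le (m : ℕ) (U : Set (Sp (m + 2))) :
    ∃ f : U → Sp (m + 2), IsLengthIncreasingEmbedding U f := by
  set c : ℝ := 1 / (4 * (m + 2)) with hc
  have hcpos : 0 < c := by positivity
  set F : Sp (m + 2) → Sp (m + 2) := fun x => c • wildHomeo m (shrink x) with hF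
  have hFemb : Topology.IsEmbedding F :=
    (Homeomorph.smulOfNeZero c hcpos.ne').isEmbedding.comp
      ((wildHomeo m).isEmbedding.comp isEmbedding_shrink)
  refine ⟨fun x => F x, hFemb.comp Topology.IsEmbedding.subtypeVal, ?_, ?_⟩
  · -- the image lies in the unit ball
    intro x
    rw [mem_closedBall_zero_iff]
    have hcoord : ∀ i, |(F x) i| ≤ 1 / (m + 2) := by
      intro i
      simp only [hF, PiLp.smul_apply, smul_eq_mul, abs_mul, abs_of_pos hcpos]
      have h1 := abs_wildHomeo_apply_le m (shrink (x : Sp (m + 2))) i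
      have h2 : |(shrink (x : Sp (m + 2))) i| ≤ 2 := by
        change |Real.arctan _| ≤ 2
        rw [abs_le]
        have h3 := Real.arctan_lt_pi_div_two ((x : Sp (m + 2)) i)
        have h4 := Real.neg_pi_div_two_lt_arctan ((x : Sp (m + 2)) i)
        have h5 := Real.pi_lt_d2
        constructor <;> linarith
      calc c * |(wildHomeo m (shrink (x : Sp (m + 2)))) i| ≤ c * 4 :=
            mul_le_mul_of_nonneg_left (by linarith) hcpos.le
        _ = 1 / (m + 2) := by rw [hc]; field_simp
    calc ‖F x‖ ≤ ∑ i, ‖(F x) i‖ := by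
          rw [EuclideanSpace.norm_eq]
          apply Real.sqrt_le_iff.mpr
          refine ⟨Finset.sum_nonneg fun i _ => norm_nonneg _, ?_⟩
          exact Finset.sum_sq_le_sq_sum_of_nonneg fun i _ => norm_nonneg _
      _ ≤ ∑ _i : Fin (m + 2), (1 / (m + 2) : ℝ) :=
          Finset.sum_le_sum fun i _ => by rw [Real.norm_eq_abs]; exact hcoord i
      _ = 1 := by
          rw [Finset.sum_const, Finset.card_univ, Fintype.card_fin, nsmul_eq_mul]
          push_cast
          field_simp
  · -- lengths
    intro γ hγ
    by_cases htop : curveLength (fun t => F (γ t)) = ⊤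
    · rw [htop]; exact le_top
    · -- then the curve is constant
      have hγ' : eVariationOn (fun t => ((γ t : U) : Sp (m + 2))) univ ≠ ⊤ := hγ
      have hconst : ∀ s t, shrink ((γ s : U) : Sp (m + 2)) = shrink ((γ t : U) : Sp (m + 2)) := by
        refine const_of_wildHomeo (m := m) (y := fun t => shrink ((γ t : U) : Sp (m + 2))) ?_ ?_ ?_
        · exact isEmbedding_shrink.continuous.comp (continuous_subtype_val.comp γ.continuous)
        · intro i
          have h1 : eVariationOn (fun t => ((γ t : U) : Sp (m + 2)) i) univ ≠ ⊤ :=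
            ne_top_of_le_ne_top hγ' (eVariationOn_coord_le _ i)
          exact lipschitz_arctan.comp_boundedVariationOn
            (show BoundedVariationOn (fun t => ((γ t : U) : Sp (m + 2)) i) univ from h1)
        · intro i
          have h1 : eVariationOn (fun t => (F (γ t)) i) univ ≠ ⊤ :=
            ne_top_of_le_ne_top htop (eVariationOn_coord_le _ i)
          have h2 : LipschitzWith (Real.nnabs c⁻¹) fun r : ℝ => c⁻¹ * r := by
            apply LipschitzWith.of_dist_le_mul
            intro a b
            rw [Real.dist_eq, Real.dist_eq, ← mul_sub, abs_mul, Real.coe_nnabs]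
          have h3 := h2.comp_boundedVariationOn
            (show BoundedVariationOn (fun t => (F (γ t)) i) univ from h1)
          have h4 : (fun r : ℝ => c⁻¹ * r) ∘ (fun t => (F (γ t)) i) =
              fun t => (wildHomeo m (shrink ((γ t : U) : Sp (m + 2)))) i := by
            funext t
            simp only [Function.comp, hF, PiLp.smul_apply, smul_eq_mul]
            rw [← mul_assoc, inv_mul_cancel₀ hcpos.ne', one_mul]
          rw [h4] at h3
          exact h3
      have hzero : curveLength γ = 0 := by
        apply eVariationOn.constant_on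
        rintro _ ⟨s, _, rfl⟩ _ ⟨t, _, rfl⟩
        exact Subtype.ext (isEmbedding_shrink.injective (hconst s t))
      rw [hzero]
      exact bot_le

/-! ### Dimension one -/

/-- The line as one-dimensional Euclidean space. -/
def e (t : ℝ) : Sp 1 := WithLp.toLp 2 fun _ => t

lemma e_apply (x : Sp 1) : e (x 0) = x := by
  ext i
  rw [Subsingleton.elim i 0]
  rfl

lemma dist_eq (x y : Sp 1) : dist x y = |x 0 - y 0| := by
  rw [EuclideanSpace.dist_eq]
  simp [Real.sqrt_sq_eq_abs, Real.dist_eq]

lemma measurePreserving_e : MeasurePreserving e :=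
  (PiLp.volume_preserving_toLp (Fin 1)).comp ((volume_preserving_funUnique (Fin 1) ℝ).symm _)

lemma isEmbedding_e : Topology.IsEmbedding e := by
  have h : Isometry e := Isometry.of_dist_eq fun s t => by
    rw [dist_eq, Real.dist_eq]
    rfl
  exact h.isEmbedding

/-- The amount of `V` to the left of `t`. -/
def slide (V : Set ℝ) (t : ℝ) : ℝ := (volume (V ∩ Iic t)).toReal

lemma slide_sub {V : Set ℝ} (hVm : MeasurableSet V) (hV : volume V ≠ ⊤) {s t : ℝ} (hst : s ≤ t) :
    slide V t - slide V s = (volume (V ∩ Ioc s t)).toReal := by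
  have h1 : V ∩ Iic t = (V ∩ Iic s) ∪ (V ∩ Ioc s t) := by
    rw [← inter_union_distrib_left, Iic_union_Ioc_eq_Iic hst]
  have hd : Disjoint (V ∩ Iic s) (V ∩ Ioc s t) := by
    apply Disjoint.mono inter_subset_right inter_subset_right
    exact Iic_disjoint_Ioc le_rfl
  have hf1 : volume (V ∩ Iic s) ≠ ⊤ := ne_top_of_le_ne_top hV (measure_mono inter_subset_left)
  have hf2 : volume (V ∩ Ioc s t) ≠ ⊤ := ne_top_of_le_ne_top hV (measure_mono inter_subset_left)
  unfold slide
  rw [h1, measure_union hd (hVm.inter measurableSet_Ioc), ENNReal.toReal_add hf1 hf2]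
  ring

lemma slide_mono {V : Set ℝ} (hVm : MeasurableSet V) (hV : volume V ≠ ⊤) : Monotone (slide V) := by
  intro s t hst
  have := slide_sub hVm hV hst
  have h : 0 ≤ (volume (V ∩ Ioc s t)).toReal := ENNReal.toReal_nonneg
  linarith

lemma slide_sub_le {V : Set ℝ} (hVm : MeasurableSet V) (hV : volume V ≠ ⊤) {s t : ℝ}
    (hst : s ≤ t) : slide V t - slide V s ≤ t - s := by
  rw [slide_sub hVm hV hst]
  have h1 : volume (V ∩ Ioc s t) ≤ volume (Ioc s t) := measure_mono inter_subset_right
  rw [Real.volume_Ioc] at h1
  have h2 := ENNReal.toReal_mono ENNReal.ofReal_ne_top h1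
  rwa [ENNReal.toReal_ofReal (by linarith)] at h2

lemma slide_sub_eq {V : Set ℝ} (hVm : MeasurableSet V) (hV : volume V ≠ ⊤) {s t : ℝ}
    (hst : s ≤ t) (hI : Icc s t ⊆ V) : slide V t - slide V s = t - s := by
  rw [slide_sub hVm hV hst]
  have h1 : V ∩ Ioc s t = Ioc s t := inter_eq_right.mpr (Ioc_subset_Icc_self.trans hI)
  rw [h1, Real.volume_Ioc, ENNReal.toReal_ofReal (by linarith)]

lemma continuous_slide {V : Set ℝ} (hVm : MeasurableSet V) (hV : volume V ≠ ⊤) :
    Continuous (slide V) := by
  have h : LipschitzWith 1 (slide V) := by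
    apply LipschitzWith.of_dist_le_mul
    intro s t
    rw [Real.dist_eq, Real.dist_eq, NNReal.coe_one, one_mul]
    rcases le_total s t with hst | hst
    · have h1 := slide_sub_le hVm hV hst
      have h2 := slide_mono hVm hV hst
      rw [abs_sub_comm, abs_of_nonneg (by linarith), abs_sub_comm, abs_of_nonneg (by linarith)]
      exact h1
    · have h1 := slide_sub_le hVm hV hst
      have h2 := slide_mono hVm hV hst
      rw [abs_of_nonneg (by linarith), abs_of_nonneg (by linarith)]
      exact h1
  exact h.continuous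

/-- Local injectivity with control. -/
lemma slide_lower {V : Set ℝ} (hVo : IsOpen V) (hV : volume V ≠ ⊤) {x : ℝ} (hx : x ∈ V) :
    ∃ ρ > 0, ∀ y, min ρ |y - x| ≤ |slide V y - slide V x| := by
  have hVm := hVo.measurableSet
  obtain ⟨ρ, hρ, hball⟩ := Metric.isOpen_iff.mp hVo x hx
  refine ⟨ρ / 2, by positivity, fun y => ?_⟩
  have hsub : ∀ z, |z - x| ≤ ρ / 2 → z ∈ V := fun z hz =>
    hball (by rw [Metric.mem_ball, Real.dist_eq]; linarith)
  set δ := min (ρ / 2) |y - x| with hδ
  have hδ0 : 0 ≤ δ := le_min (by positivity) (abs_nonneg _)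
  have hδ1 : δ ≤ ρ / 2 := min_le_left _ _
  have hδ2 : δ ≤ |y - x| := min_le_right _ _
  rcases le_total x y with hxy | hxy
  · rw [abs_of_nonneg (by linarith : 0 ≤ y - x)] at hδ2
    have h1 : slide V (x + δ) - slide V x = (x + δ) - x := by
      apply slide_sub_eq hVm hV (by linarith)
      intro z hz
      exact hsub z (by rw [abs_of_nonneg (by linarith [hz.1])]; linarith [hz.2])
    have h2 := slide_mono hVm hV (show x + δ ≤ y by linarith)
    rw [abs_of_nonneg (by linarith [slide_mono hVm hV hxy])]
    linarith
  · rw [abs_of_nonpos (by linarith : y - x ≤ 0)] at hδ2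
    have h1 : slide V x - slide V (x - δ) = x - (x - δ) := by
      apply slide_sub_eq hVm hV (by linarith)
      intro z hz
      exact hsub z (by rw [abs_of_nonpos (by linarith [hz.2])]; linarith [hz.1])
    have h2 := slide_mono hVm hV (show y ≤ x - δ by linarith)
    rw [abs_of_nonpos (by linarith [slide_mono hVm hV hxy])]
    linarith

theorem dim_one (U : Set (Sp 1)) (hU : IsOpen U) (hvol : volume U ≤ 1) :
    ∃ f : U → Sp 1, IsLengthIncreasingEmbedding U f := by
  set V : Set ℝ := e ⁻¹' U with hVdef
  have hVo : IsOpen V := hU.preimage isEmbedding_e.continuous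
  have hVvol : volume V = volume U :=
    measurePreserving_e.measure_preimage hU.measurableSet.nullMeasurableSet
  have hV1 : volume V ≤ 1 := hVvol ▸ hvol
  have hV : volume V ≠ ⊤ := ne_top_of_le_ne_top ENNReal.one_ne_top hV1
  have hVm := hVo.measurableSet
  have hmem : ∀ x : Sp 1, x ∈ U → x 0 ∈ V := fun x hx => by
    change e (x 0) ∈ U
    rwa [e_apply]
  have hc0 : Continuous fun x : Sp 1 => x 0 := by fun_prop
  set G : U → ℝ := fun x => slide V ((x : Sp 1) 0) with hG
  have hGc : Continuous G := (continuous_slide hVm hV).comp (hc0.comp continuous_subtype_val)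
  have hGe : Topology.IsEmbedding G := by
    refine ⟨Topology.isInducing_iff_nhds.mpr fun x => ?_, ?_⟩
    · apply le_antisymm hGc.continuousAt.tendsto.le_comap
      obtain ⟨ρ, hρ, hlow⟩ := slide_lower hVo hV (hmem x x.2)
      rw [(Metric.nhds_basis_ball (x := G x)).comap G |>.le_basis_iff Metric.nhds_basis_ball]
      intro ε hε
      refine ⟨min ρ ε, lt_min hρ hε, ?_⟩
      intro y hy
      rw [mem_preimage, Metric.mem_ball, Real.dist_eq] at hy
      rw [Metric.mem_ball, Subtype.dist_eq, dist_eq]
      have h1 := hlow ((y : Sp 1) 0)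
      by_contra hcon
      push Not at hcon
      have h2 : min ρ ε ≤ min ρ |(y : Sp 1) 0 - (x : Sp 1) 0| := min_le_min le_rfl hcon
      exact absurd hy (not_lt.mpr (h2.trans h1))
    · intro x y hxy
      obtain ⟨ρ, hρ, hlow⟩ := slide_lower hVo hV (hmem x x.2)
      have h1 := hlow ((y : Sp 1) 0)
      have h2 : slide V ((y : Sp 1) 0) - slide V ((x : Sp 1) 0) = 0 := by
        have : slide V ((x : Sp 1) 0) = slide V ((y : Sp 1) 0) := hxy
        rw [this, sub_self]
      rw [h2, abs_zero] at h1
      have h3 : |(y : Sp 1) 0 - (x : Sp 1) 0| ≤ 0 := by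
        by_contra hcon
        push Not at hcon
        exact absurd h1 (not_le.mpr (lt_min hρ hcon))
      have h4 : dist (y : Sp 1) (x : Sp 1) = 0 := by
        rw [dist_eq]
        exact le_antisymm h3 (abs_nonneg _)
      exact Subtype.ext (dist_eq_zero.mp h4).symm
  refine ⟨fun x => e (G x), isEmbedding_e.comp hGe, ?_, ?_⟩
  · intro x
    rw [Metric.mem_closedBall, dist_eq]
    change |slide V ((x : Sp 1) 0) - 0| ≤ 1
    unfold slide
    rw [sub_zero, abs_of_nonneg ENNReal.toReal_nonneg]
    have h1 : volume (V ∩ Iic ((x : Sp 1) 0)) ≤ 1 := (measure_mono inter_subset_left).trans hV1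
    have h2 := ENNReal.toReal_mono ENNReal.one_ne_top h1
    simpa using h2
  · intro γ _
    apply le_of_eq
    have hedist : ∀ s t, edist (γ s) (γ t) = edist (e (G (γ s))) (e (G (γ t))) := by
      intro s t
      rw [edist_dist, edist_dist, Subtype.dist_eq, dist_eq, dist_eq]
      congr 1
      change |((γ s : U) : Sp 1) 0 - ((γ t : U) : Sp 1) 0| =
        |slide V (((γ s : U) : Sp 1) 0) - slide V (((γ t : U) : Sp 1) 0)|
      have hac : Continuous fun τ : unitInterval => ((γ τ : U) : Sp 1) 0 :=
        hc0.comp (continuous_subtype_val.comp γ.continuous)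
      have hoc : OrdConnected (range fun τ : unitInterval => ((γ τ : U) : Sp 1) 0) :=
        (isPreconnected_range hac).ordConnected
      have hsub : (range fun τ : unitInterval => ((γ τ : U) : Sp 1) 0) ⊆ V := by
        rintro _ ⟨τ, rfl⟩
        exact hmem _ (γ τ).2
      rcases le_total (((γ s : U) : Sp 1) 0) (((γ t : U) : Sp 1) 0) with h | h
      · have h1 := slide_sub_eq hVm hV h
          ((hoc.out (mem_range_self s) (mem_range_self t)).trans hsub)
        rw [abs_sub_comm, abs_sub_comm (slide V _), h1]
      · have h1 := slide_sub_eq hVm hV h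
          ((hoc.out (mem_range_self t) (mem_range_self s)).trans hsub)
        rw [h1]
    unfold curveLength eVariationOn
    simp only [hedist]

/-- **Guth's sponge problem as posed.**  For every `n ≥ 1` there is `ε > 0` such that every open
`U ⊆ ℝ^n` of volume at most `ε` has a length-increasing embedding into the closed unit ball.  For
`n ≥ 2` every subset of `ℝ^n`, of any volume, has one. -/
theorem result :
    (∀ n : ℕ, 1 ≤ n → ∃ ε : ℝ≥0∞, 0 < ε ∧ ∀ U : Set (EuclideanSpace ℝ (Fin n)), IsOpen U →
      volume U ≤ ε → ∃ f : U → EuclideanSpace ℝ (Fin n), IsLengthIncreasingEmbedding U f) ∧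
    (∀ n : ℕ, 2 ≤ n → ∀ U : Set (EuclideanSpace ℝ (Fin n)),
      ∃ f : U → EuclideanSpace ℝ (Fin n), IsLengthIncreasingEmbedding U f) := by
  have h2 : ∀ n : ℕ, 2 ≤ n → ∀ U : Set (EuclideanSpace ℝ (Fin n)),
      ∃ f : U → EuclideanSpace ℝ (Fin n), IsLengthIncreasingEmbedding U f := by
    intro n hn
    obtain ⟨m, rfl⟩ := Nat.exists_eq_add_of_le' hn
    exact two_le m
  refine ⟨fun n hn => ⟨1, one_pos, fun U hU hvol => ?_⟩, h2⟩
  rcases Nat.lt_or_ge n 2 with h | h
  · obtain rfl : n = 1 := by omega
    exact dim_one U hU hvol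
  · exact h2 n h U

end Pool.Agent.Results.MP_ecd4e3_gt.SpongeEmbedding
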